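import Pool.Agent.J6H9.EU.Stm

set_option autoImplicit false

/-! # EU-DEN: `U d` is an Erdős–Ulam ideal -/

namespace Pool.Agent.J6H46.EU

open Filter Topology Pool.Agent.J6H9.EU

variable {d : ℕ → ℕ}

lemma st_succ (n : ℕ) : st d (n + 1) = st d n + d n := by unfold st; rw [Finset.sum_range_succ]

lemma st_zero : st d 0 = 0 := by simp [st]

lemma st_mono : Monotone (st d) := monotone_nat_of_le_succ fun n => by rw [st_succ]; omega

lemma le_st (hd : ∀ n, 0 < d n) (n : ℕ) : n ≤ st d n := by
  induction n with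
  | zero => omega
  | succ n ih => rw [st_succ]; have := hd n; omega

/-- the number of the interval of `x` -/
def idx (d : ℕ → ℕ) (x : ℕ) : ℕ := Nat.findGreatest (fun n => st d n ≤ x) x

lemma idx_le (x : ℕ) : st d (idx d x) ≤ x :=
  Nat.findGreatest_spec (P := fun n => st d n ≤ x) (Nat.zero_le x) (by rw [st_zero]; omega)

lemma lt_idx (hd : ∀ n, 0 < d n) (x : ℕ) : x < st d (idx d x + 1) := by
  by_contra h
  push Not at h
  have h1 : idx d x + 1 ≤ x := (le_st hd _).trans h
  have h2 := Nat.le_findGreatest (P := fun n => st d n ≤ x) h1 h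
  unfold idx at h2
  omega

lemma idx_eq (hd : ∀ n, 0 < d n) {x n : ℕ} (h1 : st d n ≤ x) (h2 : x < st d n + d n) : idx d x = n := by
  have h3 := idx_le (d := d) x
  have h4 := lt_idx hd x
  by_contra hne
  rcases lt_or_gt_of_ne hne with h | h
  · have := st_mono (d := d) (show idx d x + 1 ≤ n by omega)
    omega
  · have := st_mono (d := d) (show n + 1 ≤ idx d x by omega)
    rw [st_succ] at this
    omega

lemma le_idx (hd : ∀ n, 0 < d n) {x n : ℕ} (h : st d n ≤ x) : n ≤ idx d x := by
  by_contra hc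
  push Not at hc
  have h1 := st_mono (d := d) (show idx d x + 1 ≤ n by omega)
  have h2 := lt_idx hd x
  omega

lemma idx_tendsto (hd : ∀ n, 0 < d n) : Tendsto (idx d) atTop atTop :=
  tendsto_atTop.2 fun n => eventually_atTop.2 ⟨st d n, fun _ hx => le_idx hd hx⟩

/-- the weights -/
noncomputable def f (d : ℕ → ℕ) (x : ℕ) : ℝ := 2 ^ idx d x / d (idx d x)

lemma f_nonneg (x : ℕ) : 0 ≤ f d x := by unfold f; positivity

open Classical in
/-- weighted counting function -/
noncomputable def SA (d : ℕ → ℕ) (A : Set ℕ) (N : ℕ) : ℝ := ∑ i ∈ (Finset.range N).filter (· ∈ A), f d i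

/-- relative size in the interval number `n` -/
noncomputable def a (d : ℕ → ℕ) (A : Set ℕ) (n : ℕ) : ℝ := ((A ∩ D d n).ncard : ℝ) / d n

lemma SA_mono (A : Set ℕ) : Monotone (SA d A) := by
  classical
  intro M N h
  unfold SA
  apply Finset.sum_le_sum_of_subset_of_nonneg
  · intro x hx
    rw [Finset.mem_filter, Finset.mem_range] at hx ⊢
    exact ⟨by omega, hx.2⟩
  · intro i _ _
    exact f_nonneg i

lemma SA_block (hd : ∀ n, 0 < d n) (A : Set ℕ) (n : ℕ) :
    SA d A (st d (n + 1)) = SA d A (st d n) + 2 ^ n * a d A n := by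
  classical
  have h1 : ∑ i ∈ Finset.Ico (st d n) (st d n + d n), (if i ∈ A then f d i else 0) =
      2 ^ n * (((A ∩ D d n).ncard : ℝ) / d n) := by
    rw [← Finset.sum_filter]
    have h2 : ∀ i ∈ (Finset.Ico (st d n) (st d n + d n)).filter (· ∈ A), f d i = 2 ^ n / d n := by
      intro i hi
      rw [Finset.mem_filter, Finset.mem_Ico] at hi
      unfold f
      rw [idx_eq hd hi.1.1 hi.1.2]
    rw [Finset.sum_congr rfl h2, Finset.sum_const, nsmul_eq_mul]
    have h3 : ((Finset.Ico (st d n) (st d n + d n)).filter (· ∈ A)).card = (A ∩ D d n).ncard := by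
      rw [← Set.ncard_coe_finset]
      congr 1
      ext x
      simp only [Finset.coe_filter, Finset.mem_Ico, Set.mem_ofPred_eq, Set.mem_inter_iff, D, Set.mem_Ico]
      tauto
    rw [h3]
    ring
  unfold SA a
  rw [Finset.sum_filter, Finset.sum_filter, ← h1, st_succ, Finset.range_eq_Ico, Finset.range_eq_Ico,
    Finset.sum_Ico_consecutive _ (Nat.zero_le _) (Nat.le_add_right _ _)]

lemma ncard_D (n : ℕ) : (D d n).ncard = d n := by
  unfold D
  rw [← Finset.coe_Ico, Set.ncard_coe_finset, Nat.card_Ico]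
  omega

lemma a_nonneg (A : Set ℕ) (n : ℕ) : 0 ≤ a d A n := by unfold a; positivity

lemma a_le_one (hd : ∀ n, 0 < d n) (A : Set ℕ) (n : ℕ) : a d A n ≤ 1 := by
  unfold a
  have h0 : (0 : ℝ) < d n := by exact_mod_cast hd n
  rw [div_le_one h0]
  have h1 : (A ∩ D d n).ncard ≤ (D d n).ncard :=
    Set.ncard_le_ncard Set.inter_subset_right (by unfold D; exact Set.finite_Ico _ _)
  rw [ncard_D] at h1
  exact_mod_cast h1

lemma SA_univ (N : ℕ) : SA d Set.univ N = ∑ i ∈ Finset.range N, f d i := by
  classical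
  unfold SA
  congr 1
  ext x
  simp

lemma SA_le_univ (A : Set ℕ) (N : ℕ) : SA d A N ≤ SA d Set.univ N := by
  classical
  rw [SA_univ]
  unfold SA
  exact Finset.sum_le_sum_of_subset_of_nonneg (Finset.filter_subset _ _) fun i _ _ => f_nonneg i

lemma F_st (hd : ∀ n, 0 < d n) (n : ℕ) : SA d Set.univ (st d n) = 2 ^ n - 1 := by
  induction n with
  | zero =>
    rw [st_zero]
    unfold SA
    simp
  | succ n ih =>
    rw [SA_block hd, ih]
    have h1 : a d Set.univ n = 1 := by
      unfold a
      rw [Set.univ_inter, ncard_D]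
      have h0 : (0 : ℝ) < d n := by exact_mod_cast hd n
      exact div_self h0.ne'
    rw [h1]
    ring

lemma F_ge (hd : ∀ n, 0 < d n) (N : ℕ) : (2 : ℝ) ^ idx d N - 1 ≤ SA d Set.univ N := by
  rw [← F_st hd]
  exact SA_mono _ (idx_le N)

lemma SA_le (hd : ∀ n, 0 < d n) (A : Set ℕ) {K : ℕ} {ε : ℝ} (h : ∀ k, K ≤ k → a d A k ≤ ε)
    (n : ℕ) : SA d A (st d n) ≤ 2 ^ K + ε * 2 ^ n := by
  have hε : 0 ≤ ε := (a_nonneg A K).trans (h K le_rfl)
  induction n with
  | zero =>
    rw [st_zero]
    unfold SA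
    simp only [Finset.range_zero, Finset.filter_empty, Finset.sum_empty]
    positivity
  | succ n ih =>
    rw [SA_block hd]
    rcases Nat.lt_or_ge n K with h1 | h1
    · -- trivial bound
      have h2 : SA d A (st d (n + 1)) ≤ 2 ^ (n + 1) - 1 := by
        rw [← F_st hd]
        exact SA_le_univ A _
      rw [SA_block hd] at h2
      have h3 : (2 : ℝ) ^ (n + 1) ≤ 2 ^ K := pow_le_pow_right₀ (by norm_num) (by omega)
      have h4 : 0 ≤ ε * 2 ^ (n + 1) := by positivity
      linarith
    · have h2 := h n h1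
      have h3 : (2 : ℝ) ^ n * a d A n ≤ 2 ^ n * ε := mul_le_mul_of_nonneg_left h2 (by positivity)
      rw [pow_succ]
      linarith

theorem main : S_DEN := by
  classical
  intro d hd hlim
  have hidx := idx_tendsto hd
  have hpow : Tendsto (fun N => (2 : ℝ) ^ idx d N) atTop atTop :=
    (tendsto_pow_atTop_atTop_of_one_lt (by norm_num : (1 : ℝ) < 2)).comp hidx
  have hdi : Tendsto (fun N => (d (idx d N) : ℝ)) atTop atTop :=
    tendsto_natCast_atTop_atTop.comp (hlim.comp hidx)
  refine ⟨f d, fun n => f_nonneg n, ?_, ?_, ?_⟩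
  · refine tendsto_atTop_mono (f := fun N => (2 : ℝ) ^ idx d N + (-1)) (fun N => ?_)
      (tendsto_atTop_add_const_right _ _ hpow)
    rw [← SA_univ]
    have := F_ge hd N
    linarith
  · have h1 : Tendsto (fun N => 2 / (d (idx d N) : ℝ)) atTop (𝓝 0) := hdi.const_div_atTop 2
    refine squeeze_zero' (Eventually.of_forall fun x => ?_) ?_ h1
    · rw [← SA_univ]
      refine div_nonneg (f_nonneg x) ?_
      unfold SA
      exact Finset.sum_nonneg fun i _ => f_nonneg i
    · filter_upwards [hidx.eventually_ge_atTop 1] with x hx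
      rw [← SA_univ]
      have h2 := F_ge hd x
      have h3 : SA d Set.univ x ≤ SA d Set.univ (x + 1) := SA_mono _ (by omega)
      have h4 : (2 : ℝ) ≤ 2 ^ idx d x := by
        calc (2 : ℝ) = 2 ^ 1 := (pow_one 2).symm
          _ ≤ 2 ^ idx d x := pow_le_pow_right₀ (by norm_num) hx
      have h5 : (2 : ℝ) ^ idx d x / 2 ≤ SA d Set.univ (x + 1) := by linarith
      have hdpos : (0 : ℝ) < d (idx d x) := by exact_mod_cast hd _
      have h6 : (0 : ℝ) < 2 ^ idx d x / 2 := by positivity
      calc f d x / SA d Set.univ (x + 1) ≤ f d x / (2 ^ idx d x / 2) := by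
            apply div_le_div_of_nonneg_left (f_nonneg x) h6 h5
        _ = 2 / (d (idx d x) : ℝ) := by
            unfold f
            field_simp
  · ext A
    have hUA : A ∈ U d ↔ Tendsto (a d A) atTop (𝓝 0) := Iff.rfl
    have hEA : A ∈ Pool.Agent.J6H9.EU.EU (f d) ↔
        Tendsto (fun n => SA d A n / SA d Set.univ n) atTop (𝓝 0) := by
      simp_rw [SA_univ]
      exact Iff.rfl
    rw [hUA, hEA]
    constructor
    · intro h
      rw [Metric.tendsto_atTop] at h ⊢
      intro ε hε
      obtain ⟨K, hK⟩ := h (ε / 16) (by positivity)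
      have hK' : ∀ k, K ≤ k → a d A k ≤ ε / 16 := by
        intro k hk
        have := hK k hk
        rw [Real.dist_eq, sub_zero] at this
        exact (le_abs_self _).trans this.le
      have hev := (hpow.eventually_ge_atTop (max 2 (8 * 2 ^ K / ε)))
      obtain ⟨N0, hN0⟩ := eventually_atTop.1 hev
      refine ⟨N0, fun N hN => ?_⟩
      have h1 := hN0 N hN
      have h2 : (2 : ℝ) ≤ 2 ^ idx d N := (le_max_left _ _).trans h1
      have h3 : 8 * 2 ^ K / ε ≤ 2 ^ idx d N := (le_max_right _ _).trans h1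
      rw [div_le_iff₀ hε] at h3
      have h4 := F_ge hd N
      have h5 : SA d A N ≤ SA d A (st d (idx d N + 1)) := SA_mono _ (lt_idx hd N).le
      have h6 := SA_le hd A hK' (idx d N + 1)
      rw [pow_succ] at h6
      have h7 : 0 ≤ SA d A N := by
        unfold SA
        exact Finset.sum_nonneg fun i _ => f_nonneg i
      have h8 : (0 : ℝ) < SA d Set.univ N := by linarith
      rw [Real.dist_eq, sub_zero, abs_of_nonneg (div_nonneg h7 h8.le), div_lt_iff₀ h8]
      have h9 : ε * (2 ^ idx d N / 2) ≤ ε * SA d Set.univ N :=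
        mul_le_mul_of_nonneg_left (by linarith) hε.le
      have h10 : (0 : ℝ) < ε * 2 ^ idx d N := by positivity
      nlinarith
    · intro h
      have h1 : Tendsto (fun n => st d (n + 1)) atTop atTop := by
        refine tendsto_atTop_mono (fun n => ?_) tendsto_id
        exact (Nat.le_succ n).trans (le_st hd (n + 1))
      have h2 : Tendsto (fun n => 2 * (SA d A (st d (n + 1)) / SA d Set.univ (st d (n + 1)))) atTop
          (𝓝 0) := by
        have := (h.comp h1).const_mul 2
        rw [mul_zero] at this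
        exact this
      refine squeeze_zero (fun n => a_nonneg A n) (fun n => ?_) h2
      rw [F_st hd, SA_block hd]
      have h3 : 0 ≤ SA d A (st d n) := by
        unfold SA
        exact Finset.sum_nonneg fun i _ => f_nonneg i
      have h4 : (1 : ℝ) ≤ 2 ^ n := one_le_pow₀ (by norm_num)
      have h5 : (0 : ℝ) < 2 ^ (n + 1) - 1 := by
        rw [pow_succ]
        linarith
      rw [← mul_div_assoc, le_div_iff₀ h5, pow_succ]
      have h6 := a_nonneg (d := d) A n
      nlinarith

end Pool.Agent.J6H46.EU
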